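import Pool.Agent.R932.SQ.Main
import Pool.Agent.Y115.Chi
import Pool.Agent.R932.EV.Ss
import Pool.Agent.R932.PO.JLie

/-!
# Project SQ: twists by powers of the cyclotomic character
-/

set_option autoImplicit false
set_option linter.unusedSectionVars false

open Matrix Polynomial Filter Topology NumberField IsDedekindDomain Module
open Pool.Agent.Y142.ZO Pool.Agent.Y142.ZI Pool.Agent.Y142.ZS
open Pool.Agent.R932.EV (SS SC)

namespace Pool.Agent.R932.SQ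

noncomputable section

section kap
variable (K : Type) [Field K] [NumberField K] (ℓ : ℕ) [hℓ : Fact ℓ.Prime]

/-- the inverse of the cyclotomic character -/
def kap : GK K →* ℚ_[ℓ] :=
  (algebraMap ℤ_[ℓ] ℚ_[ℓ]).toMonoidHom.comp
    ((Units.coeHom ℤ_[ℓ]).comp ((Pool.Agent.Y115.Chi.chi K ℓ)⁻¹))

theorem kap_apply (g : GK K) :
    kap K ℓ g = ((((Pool.Agent.Y115.Chi.chi K ℓ g)⁻¹ : ℤ_[ℓ]ˣ) : ℤ_[ℓ]) : ℚ_[ℓ]) := rfl

theorem continuous_kap : Continuous (kap K ℓ) := by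
  have h1 : Continuous fun g => (Pool.Agent.Y115.Chi.chi K ℓ g)⁻¹ :=
    (Pool.Agent.Y115.Chi.continuous_chi K ℓ).inv
  have h2 := Units.continuous_val.comp h1
  exact continuous_subtype_val.comp h2

theorem kap_frob {v : HeightOneSpectrum (𝓞 K)} (hv : (ℓ : 𝓞 K) ∉ v.asIdeal) {σ : GK K}
    (hσ : IsFrobenius v σ) : kap K ℓ σ⁻¹ = (Ideal.absNorm v.asIdeal : ℚ_[ℓ]) := by
  obtain ⟨Q, hQ, hQv, hQσ⟩ := hσ
  have h1 : (ℓ : 𝓞 (AlgebraicClosure K)) ∉ Q := by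
    intro h
    apply hv
    rw [← hQv, Ideal.mem_comap, map_natCast]
    exact h
  have h2 := Pool.Agent.Y115.Chi.chi_frob (F := K) (ℓ := ℓ) (q := Ideal.absNorm v.asIdeal)
    hQ.isPrime h1 (σ := σ) hQσ
  rw [kap_apply, map_inv, inv_inv, h2]
  exact PadicInt.coe_natCast _

end kap

section tw
variable {K : Type} [Field K] [NumberField K] {ℓ : ℕ} [hℓ : Fact ℓ.Prime] {N : ℕ}

/-- the twist by a power of the inverse cyclotomic character -/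
def tw (c : ℕ) (ρ : GK K →* Matrix (Fin N) (Fin N) ℚ_[ℓ]) :
    GK K →* Matrix (Fin N) (Fin N) ℚ_[ℓ] where
  toFun g := kap K ℓ g ^ c • ρ g
  map_one' := by rw [map_one, map_one, one_pow, one_smul]
  map_mul' g h := by rw [map_mul, map_mul, mul_pow, smul_mul_smul_comm]

theorem tw_apply (c : ℕ) (ρ : GK K →* Matrix (Fin N) (Fin N) ℚ_[ℓ]) (g : GK K) :
    tw c ρ g = kap K ℓ g ^ c • ρ g := rfl

theorem continuous_tw (c : ℕ) {ρ : GK K →* Matrix (Fin N) (Fin N) ℚ_[ℓ]} (hρ : Continuous ρ) :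
    Continuous (tw c ρ) := ((continuous_kap K ℓ).pow c).smul hρ

/-- tangent vectors of a twist -/
theorem tan_twist (hN : 0 < N) {ρ : GK K →* Matrix (Fin N) (Fin N) ℚ_[ℓ]} (hρ : Continuous ρ)
    (c : ℕ) {X : Matrix (Fin N) (Fin N) ℚ_[ℓ]} (hX : IsTangent ℓ ρ X) :
    ∃ b : ℚ_[ℓ], IsTangent ℓ (tw c ρ) (X + b • (1 : Matrix (Fin N) (Fin N) ℚ_[ℓ])) := by
  obtain ⟨Y, ⟨s, hs⟩, hY⟩ := PO.jlift ℓ Bool (fun _ => N) (GK K)
    (fun b => cond b ρ (tw c ρ)) (by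
      rintro (_ | _)
      · exact continuous_tw c hρ
      · exact hρ) true X hX
  have h1 : Tendsto (fun n : ℕ => ((ℓ : ℚ_[ℓ]) ^ n)⁻¹ • (ρ (s n) - 1)) atTop (𝓝 X) := by
    have := hs true
    rw [hY] at this
    exact this
  have h2 : Tendsto (fun n : ℕ => ((ℓ : ℚ_[ℓ]) ^ n)⁻¹ • (tw c ρ (s n) - 1)) atTop (𝓝 (Y false)) :=
    hs false
  have hℓ0 : ∀ n : ℕ, ((ℓ : ℚ_[ℓ]) ^ n) ≠ 0 := fun n => pow_ne_zero _
    (by exact_mod_cast hℓ.out.ne_zero)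
  have hℓt : Tendsto (fun n : ℕ => (ℓ : ℚ_[ℓ]) ^ n) atTop (𝓝 0) := by
    refine tendsto_pow_atTop_nhds_zero_of_norm_lt_one ?_
    rw [Padic.norm_p]
    exact inv_lt_one_of_one_lt₀ (by exact_mod_cast hℓ.out.one_lt)
  have h3 : Tendsto (fun n : ℕ => ρ (s n)) atTop (𝓝 1) := by
    have h4 := (hℓt.smul h1).const_add (1 : Matrix (Fin N) (Fin N) ℚ_[ℓ])
    rw [zero_smul, add_zero] at h4
    refine h4.congr fun n => ?_
    rw [smul_smul, mul_inv_cancel₀ (hℓ0 n), one_smul, add_sub_cancel]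
  have h4 : Tendsto (fun n : ℕ => (((ℓ : ℚ_[ℓ]) ^ n)⁻¹ * (kap K ℓ (s n) ^ c - 1)) • ρ (s n)) atTop
      (𝓝 (Y false - X)) := by
    refine (h2.sub h1).congr fun n => ?_
    rw [tw_apply, ← smul_sub, sub_sub_sub_cancel_right, mul_smul]
    congr 1
    rw [sub_smul, one_smul]
  have i₀ : Fin N := ⟨0, hN⟩
  have h5 : Tendsto (fun n : ℕ => ((ℓ : ℚ_[ℓ]) ^ n)⁻¹ * (kap K ℓ (s n) ^ c - 1)) atTop
      (𝓝 ((Y false - X) i₀ i₀)) := by
    have h6 := ((continuous_apply_apply i₀ i₀).tendsto (Y false - X)).comp h4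
    have h7 := ((continuous_apply_apply i₀ i₀).tendsto (1 : Matrix (Fin N) (Fin N) ℚ_[ℓ])).comp h3
    rw [Matrix.one_apply_eq] at h7
    have h8 := h6.div h7 one_ne_zero
    rw [div_one] at h8
    have h9 : ∀ᶠ n : ℕ in atTop, ρ (s n) i₀ i₀ ≠ 0 := h7.eventually_ne one_ne_zero
    refine h8.congr' ?_
    filter_upwards [h9] with n hn
    show ((((ℓ : ℚ_[ℓ]) ^ n)⁻¹ * (kap K ℓ (s n) ^ c - 1)) • ρ (s n)) i₀ i₀ / ρ (s n) i₀ i₀ = _
    rw [Matrix.smul_apply, smul_eq_mul, mul_div_cancel_right₀ _ hn]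
  have h6 := tendsto_nhds_unique h4 (h5.smul h3)
  refine ⟨(Y false - X) i₀ i₀, s, ?_⟩
  rw [← h6, add_sub_cancel]
  exact h2

end tw

/-- the condition for a shift -/
theorem noRel_shift {ℓ : ℕ} [Fact ℓ.Prime] {N : ℕ} {X : Matrix (Fin N) (Fin N) ℚ_[ℓ]} {c : ℚ_[ℓ]}
    (h : NoRel X.charpoly c) (b : ℚ_[ℓ]) :
    NoRel (X + b • (1 : Matrix (Fin N) (Fin N) ℚ_[ℓ])).charpoly (c + 2 * b) := by
  classical
  have h1 : (X + b • (1 : Matrix (Fin N) (Fin N) ℚ_[ℓ])).charpoly =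
      X.charpoly.comp (Polynomial.X - C b) := by
    have h2 := Matrix.charpoly_sub_scalar X (-b)
    rw [C_neg, ← sub_eq_add_neg] at h2
    rw [← h2]
    congr 1
    rw [Matrix.scalar_apply, ← Matrix.smul_one_eq_diagonal, neg_smul, sub_neg_eq_add]
  rw [h1]
  obtain ⟨hsep, hno⟩ := h
  refine ⟨?_, fun I hI hr => ?_⟩
  · obtain ⟨u, v, huv⟩ := hsep
    refine ⟨u.comp (Polynomial.X - C b), v.comp (Polynomial.X - C b), ?_⟩
    rw [derivative_comp, derivative_sub, derivative_X, derivative_C, sub_zero, one_mul,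
      ← mul_comp, ← mul_comp, ← add_comp, huv, one_comp]
  · set β : Lb ℓ := algebraMap ℚ_[ℓ] (Lb ℓ) b with hβ
    have hinj : Set.InjOn (fun t : Lb ℓ => t - β) I := fun x _ y _ hxy => sub_left_injective hxy
    have h2 := hno (I.image fun t => t - β) (hI.image _) (fun t ht => by
      rw [Finset.mem_image] at ht
      obtain ⟨x, hx, rfl⟩ := ht
      obtain ⟨h3, h4⟩ := hr x hx
      refine ⟨?_, fun hmem => ?_⟩
      · rw [aeval_comp, map_sub, aeval_X, aeval_C] at h3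
        exact h3
      · rw [Finset.mem_image] at hmem
        obtain ⟨y, hy, hyx⟩ := hmem
        apply h4
        have h5 : algebraMap ℚ_[ℓ] (Lb ℓ) (c + 2 * b) - x = y := by
          rw [map_add, map_mul, map_ofNat, ← hβ]
          linear_combination -hyx
        rw [h5]
        exact hy)
    rw [Finset.sum_image hinj, Finset.card_image_of_injOn hinj, Finset.sum_sub_distrib,
      Finset.sum_const, nsmul_eq_mul] at h2
    intro h3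
    apply h2
    rw [map_add, map_mul, map_ofNat, ← hβ] at h3
    linear_combination h3

/-- the characteristic polynomial of a scalar multiple -/
theorem charpoly_smul' {k : Type} [Field k] [Infinite k] {n : ℕ} {c : k} (hc : c ≠ 0)
    (A : Matrix (Fin n) (Fin n) k) : (c • A).charpoly = A.charpoly.scaleRoots c := by
  apply Polynomial.funext
  intro x
  obtain ⟨y, rfl⟩ : ∃ y, x = c * y := ⟨c⁻¹ * x, by rw [mul_inv_cancel_left₀ hc]⟩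
  have h1 : Polynomial.eval (c * y) (A.charpoly.scaleRoots c) =
      c ^ n * Polynomial.eval y A.charpoly := by
    have h2 := Polynomial.scaleRoots_eval₂_mul (p := A.charpoly) (RingHom.id k) y c
    rw [Matrix.charpoly_natDegree_eq_dim, Fintype.card_fin] at h2
    exact h2
  rw [h1, Matrix.eval_charpoly, Matrix.eval_charpoly]
  have h3 : (Matrix.scalar (Fin n)) (c * y) - c • A = c • ((Matrix.scalar (Fin n)) y - A) := by
    rw [smul_sub]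
    congr 1
    ext i j
    simp [Matrix.scalar_apply, Matrix.diagonal_apply]
  rw [h3, Matrix.det_smul, Fintype.card_fin]

/-- **semisimplicity at every prime**, rational systems -/
theorem ss_all {K : Type} [Field K] [NumberField K] (hK : finrank ℚ K = 1)
    {Γ : Type} [Group Γ] (s : GK K →* Γ) {N w c : ℕ} (hwc : 0 < w + 2 * c)
    {S : Set (HeightOneSpectrum (𝓞 K))} (hS : S.Finite) (P : HeightOneSpectrum (𝓞 K) → ℚ[X])
    (hP : ∀ v ∉ S, (P v).Monic ∧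
      (∀ z : ℂ, aeval z (P v) = 0 → ‖z‖ ^ 2 = (Ideal.absNorm v.asIdeal : ℝ) ^ w) ∧
      ∃ Q : ℤ[X], (P v).scaleRoots ((Ideal.absNorm v.asIdeal : ℚ) ^ c) = Q.map (algebraMap ℤ ℚ))
    (ρ : ∀ (ℓ : ℕ) [Fact ℓ.Prime], Γ →* Matrix (Fin N) (Fin N) ℚ_[ℓ])
    (hρ : ∀ (ℓ : ℕ) [Fact ℓ.Prime], Continuous ((ρ ℓ).comp s))
    (J : ∀ (ℓ : ℕ) [Fact ℓ.Prime], Matrix (Fin N) (Fin N) ℚ_[ℓ])
    (hJ : ∀ (ℓ : ℕ) [Fact ℓ.Prime], (J ℓ)ᵀ = J ℓ ∨ (J ℓ)ᵀ = -J ℓ)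
    (hdet : ∀ (ℓ : ℕ) [Fact ℓ.Prime], (J ℓ).det ≠ 0)
    (χ : ∀ (ℓ : ℕ) [Fact ℓ.Prime], Γ → ℚ_[ℓ])
    (hχ : ∀ (ℓ : ℕ) [Fact ℓ.Prime] (g : Γ), (ρ ℓ g)ᵀ * J ℓ * ρ ℓ g = χ ℓ g • J ℓ)
    (hfrob : ∀ (ℓ : ℕ) [Fact ℓ.Prime], ∀ v ∉ S, (ℓ : 𝓞 K) ∉ v.asIdeal → ∀ σ : GK K,
      IsFrobenius v σ → (ρ ℓ (s σ⁻¹)).charpoly = (P v).map (algebraMap ℚ ℚ_[ℓ]) ∧
      χ ℓ (s σ⁻¹) = (Ideal.absNorm v.asIdeal : ℚ_[ℓ]) ^ w)
    (ℓ₀ : ℕ) [hℓ₀ : Fact ℓ₀.Prime]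
    (hfull : ∀ X, SpLie (J ℓ₀) X → IsTangent ℓ₀ ((ρ ℓ₀).comp s) X) (ℓ : ℕ) [hℓ : Fact ℓ.Prime] :
    SS (ρ ℓ) := by
  classical
  intro W hW
  rcases Nat.eq_zero_or_pos N with h0 | hN
  · subst h0
    refine ⟨⊥, ⟨disjoint_bot_right, ?_⟩, fun σ w hw => ?_⟩
    · rw [codisjoint_iff, sup_bot_eq, eq_top_iff]
      intro x _
      rw [Subsingleton.elim x 0]
      exact W.zero_mem
    · rw [Subsingleton.elim (ρ ℓ σ *ᵥ w) 0]
      exact Submodule.zero_mem _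
  obtain ⟨X, hX, hno⟩ := exists_noRel (hJ ℓ₀) (hdet ℓ₀)
  obtain ⟨b, hb⟩ := tan_twist hN (hρ ℓ₀) c (hfull X hX)
  have hno' := noRel_shift hno b
  have hN0 : ∀ v : HeightOneSpectrum (𝓞 K), Ideal.absNorm v.asIdeal ≠ 0 := fun v h =>
    v.ne_bot (Ideal.absNorm_eq_zero_iff.1 h)
  choose Q hQ using fun (v : HeightOneSpectrum (𝓞 K)) (hv : v ∉ S) => (hP v hv).2.2
  have hmain := semisimple_all hK (MonoidHom.id (GK K)) (N := N) (w := w + 2 * c) hwc hS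
    (fun v => if hv : v ∈ S then 1 else Q v hv) (fun v hv => ?_)
    (fun ℓ _ => tw c ((ρ ℓ).comp s)) (fun ℓ _ => ?_) J hJ hdet
    (fun ℓ _ g => kap K ℓ g ^ (2 * c) * χ ℓ (s g)) (fun ℓ _ g => ?_)
    (fun ℓ _ v hv hvℓ σ hσ => ?_) ℓ₀ (X := X + b • 1) hb (c := 0 + 2 * b) ?_ hno' ℓ W
    (fun g x hx => ?_)
  · refine ⟨(bil (J ℓ)).orthogonal W, hmain.1, fun g x hx => ?_⟩
    have hbil : ∀ x y : Fin N → ℚ_[ℓ], bil (J ℓ) x y = x ⬝ᵥ J ℓ *ᵥ y := fun x y =>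
      Matrix.toBilin'_apply' (J ℓ) x y
    rw [LinearMap.BilinForm.mem_orthogonal_iff] at hx ⊢
    intro u hu
    obtain ⟨y, hy, rfl⟩ : ∃ y ∈ W, ρ ℓ g *ᵥ y = u := ⟨ρ ℓ g⁻¹ *ᵥ u, hW g⁻¹ u hu, by
      rw [mulVec_mulVec, ← map_mul, mul_inv_cancel, map_one, one_mulVec]⟩
    have h2 : bil (J ℓ) y x = 0 := hx y hy
    show bil (J ℓ) (ρ ℓ g *ᵥ y) (ρ ℓ g *ᵥ x) = 0
    rw [hbil, mulVec_mulVec]
    rw [hbil] at h2
    have h3 : (ρ ℓ g *ᵥ y) ⬝ᵥ (J ℓ * ρ ℓ g) *ᵥ x = y ⬝ᵥ ((ρ ℓ g)ᵀ * J ℓ * ρ ℓ g) *ᵥ x := by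
      rw [Matrix.mul_assoc, ← mulVec_mulVec x (ρ ℓ g)ᵀ (J ℓ * ρ ℓ g), dotProduct_mulVec y,
        vecMul_transpose]
    rw [h3, hχ, smul_mulVec, dotProduct_smul, h2, smul_zero]
  · simp only [dif_neg hv]
    have hNv : ((Ideal.absNorm v.asIdeal : ℚ) ^ c) ≠ 0 :=
      pow_ne_zero _ (by exact_mod_cast hN0 v)
    refine ⟨?_, fun z hz => ?_⟩
    · refine Polynomial.monic_of_injective (f := algebraMap ℤ ℚ) (RingHom.injective_int _) ?_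
      rw [← hQ v hv, monic_scaleRoots_iff]
      exact (hP v hv).1
    · have h1 : aeval z ((P v).scaleRoots ((Ideal.absNorm v.asIdeal : ℚ) ^ c)) = 0 := by
        rw [hQ v hv, aeval_map_algebraMap]
        exact hz
      have hNc : ((Ideal.absNorm v.asIdeal : ℂ) ^ c) ≠ 0 :=
        pow_ne_zero _ (by exact_mod_cast hN0 v)
      obtain ⟨y, rfl⟩ : ∃ y : ℂ, z = (Ideal.absNorm v.asIdeal : ℂ) ^ c * y :=
        ⟨z / (Ideal.absNorm v.asIdeal : ℂ) ^ c, by rw [mul_div_cancel₀ _ hNc]⟩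
      have h2 := Polynomial.scaleRoots_eval₂_mul (p := P v) (algebraMap ℚ ℂ) y
        ((Ideal.absNorm v.asIdeal : ℚ) ^ c)
      rw [map_pow, map_natCast] at h2
      rw [aeval_def, h2] at h1
      have h3 : aeval y (P v) = 0 := by
        rw [aeval_def]
        exact (mul_eq_zero.1 h1).resolve_left (pow_ne_zero _ hNc)
      have h4 := (hP v hv).2.1 y h3
      rw [norm_mul, mul_pow, h4, norm_pow, Complex.norm_natCast, ← pow_mul, ← pow_add]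
      congr 1
      ring
  · exact continuous_tw c (hρ ℓ)
  · show (kap K ℓ g ^ c • ρ ℓ (s g))ᵀ * J ℓ * (kap K ℓ g ^ c • ρ ℓ (s g)) = _
    rw [transpose_smul, Matrix.smul_mul, Matrix.smul_mul, Matrix.mul_smul, smul_smul, hχ, smul_smul,
      two_mul c, pow_add]
  · simp only [dif_neg hv]
    obtain ⟨h1, h2⟩ := hfrob ℓ v hv hvℓ σ hσ
    have hNℓ : ((Ideal.absNorm v.asIdeal : ℚ_[ℓ]) ^ c) ≠ 0 :=
      pow_ne_zero _ (by exact_mod_cast hN0 v)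
    constructor
    · show (kap K ℓ σ⁻¹ ^ c • ρ ℓ (s σ⁻¹)).charpoly = _
      rw [kap_frob K ℓ hvℓ hσ, charpoly_smul' hNℓ, h1]
      have h3 := Polynomial.map_scaleRoots (P v) ((Ideal.absNorm v.asIdeal : ℚ) ^ c)
        (algebraMap ℚ ℚ_[ℓ]) (by rw [(hP v hv).1.leadingCoeff, map_one]; exact one_ne_zero)
      rw [map_pow, map_natCast] at h3
      rw [← h3, hQ v hv, Polynomial.map_map]
      congr 1
    · show kap K ℓ σ⁻¹ ^ (2 * c) * χ ℓ (s σ⁻¹) = _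
      rw [kap_frob K ℓ hvℓ hσ, h2, ← pow_add, add_comm]
  · have h1 : Xᵀ * J ℓ₀ + J ℓ₀ * X = 0 := hX
    rw [transpose_add, transpose_smul, transpose_one, Matrix.add_mul, Matrix.mul_add,
      Matrix.smul_mul, Matrix.mul_smul, Matrix.one_mul, Matrix.mul_one, zero_add]
    calc Xᵀ * J ℓ₀ + b • J ℓ₀ + (J ℓ₀ * X + b • J ℓ₀) = (Xᵀ * J ℓ₀ + J ℓ₀ * X) +
          (b • J ℓ₀ + b • J ℓ₀) := by abel
      _ = (2 * b) • J ℓ₀ := by rw [h1, zero_add, ← two_smul ℚ_[ℓ₀] (b • J ℓ₀), smul_smul]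
  · show (kap K ℓ g ^ c • ρ ℓ (s g)) *ᵥ x ∈ W
    rw [smul_mulVec]
    exact W.smul_mem _ (hW _ x hx)

end

end Pool.Agent.R932.SQ
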