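import Pool.Agent.Y142.ZO.Stm

/-!
# Project SQ: congruent Gram matrices
-/

set_option autoImplicit false
set_option linter.unusedSectionVars false

open Matrix Polynomial
open Pool.Agent.Y142.ZO

namespace Pool.Agent.R932.SQ

variable {F : Type} [Field F]

/-- congruence of Gram matrices (with possibly different index types) -/
def Cgr {I J : Type} [Fintype I] [DecidableEq I] [Fintype J] [DecidableEq J]
    (B : Matrix I I F) (B' : Matrix J J F) : Prop :=
  ∃ (C : Matrix I J F) (D : Matrix J I F), C * D = 1 ∧ D * C = 1 ∧ Cᵀ * B * C = B'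

section
variable {I J K L : Type} [Fintype I] [DecidableEq I] [Fintype J] [DecidableEq J]
  [Fintype K] [DecidableEq K] [Fintype L] [DecidableEq L]

theorem Cgr.refl (B : Matrix I I F) : Cgr B B := ⟨1, 1, by simp, by simp, by simp⟩

theorem Cgr.trans {B : Matrix I I F} {B' : Matrix J J F} {B'' : Matrix K K F}
    (h : Cgr B B') (h' : Cgr B' B'') : Cgr B B'' := by
  obtain ⟨C, D, h1, h2, h3⟩ := h
  obtain ⟨C', D', h1', h2', h3'⟩ := h'
  refine ⟨C * C', D' * D, ?_, ?_, ?_⟩
  · rw [Matrix.mul_assoc, ← Matrix.mul_assoc C' D' D, h1', Matrix.one_mul, h1]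
  · rw [Matrix.mul_assoc, ← Matrix.mul_assoc D C C', h2, Matrix.one_mul, h2']
  · rw [transpose_mul, Matrix.mul_assoc, Matrix.mul_assoc]
    rw [← h3', ← h3]
    simp only [Matrix.mul_assoc]

theorem Cgr.symm {B : Matrix I I F} {B' : Matrix J J F} (h : Cgr B B') : Cgr B' B := by
  obtain ⟨C, D, h1, h2, h3⟩ := h
  refine ⟨D, C, h2, h1, ?_⟩
  rw [← h3]
  calc Dᵀ * (Cᵀ * B * C) * D = (C * D)ᵀ * B * (C * D) := by
        rw [transpose_mul]; simp only [Matrix.mul_assoc]
    _ = B := by rw [h1]; simp

theorem Cgr.reindex (B : Matrix I I F) (e : J ≃ I) : Cgr B (B.submatrix e e) := by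
  refine ⟨(1 : Matrix I I F).submatrix id e, (1 : Matrix I I F).submatrix e id, ?_, ?_, ?_⟩
  · rw [Matrix.submatrix_mul_equiv, Matrix.one_mul]; simp
  · rw [← Matrix.submatrix_mul _ _ e id e Function.bijective_id, Matrix.one_mul]
    exact Matrix.submatrix_one_equiv e
  · ext i j
    simp [Matrix.mul_apply, Matrix.one_apply, Matrix.transpose_apply]

theorem Cgr.sum {B : Matrix I I F} {B' : Matrix J J F} {A : Matrix K K F} {A' : Matrix L L F}
    (h : Cgr B B') (h' : Cgr A A') :
    Cgr (fromBlocks B 0 0 A) (fromBlocks B' 0 0 A') := by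
  obtain ⟨C, D, h1, h2, h3⟩ := h
  obtain ⟨C', D', h1', h2', h3'⟩ := h'
  refine ⟨fromBlocks C 0 0 C', fromBlocks D 0 0 D', ?_, ?_, ?_⟩
  · rw [fromBlocks_multiply]; simp [h1, h1']
  · rw [fromBlocks_multiply]; simp [h2, h2']
  · rw [fromBlocks_transpose, fromBlocks_multiply, fromBlocks_multiply]; simp [h3, h3']

theorem Cgr.of_eq {B B' : Matrix I I F} (h : B = B') : Cgr B B' := h ▸ Cgr.refl B

theorem Cgr.diag_reindex (d : I → F) (e : J ≃ I) : Cgr (diagonal d) (diagonal (d ∘ e)) := by
  have := Cgr.reindex (diagonal d) e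
  rwa [Matrix.submatrix_diagonal_equiv] at this


end

theorem diagz {n : ℕ} (B : Matrix (Fin n) (Fin n) F) (hB : Bᵀ = B) (hdet : B.det ≠ 0)
    (h2 : (2 : F) ≠ 0) : ∃ d : Fin n → F, (∀ i, d i ≠ 0) ∧ Cgr B (diagonal d) := by
  classical
  let _ : Invertible (2 : F) := invertibleOfNonzero h2
  have hs : LinearMap.IsSymm (Matrix.toBilin' B) := by
    rw [LinearMap.isSymm_def]
    intro x y
    rw [RingHom.id_apply]
    rw [Matrix.toBilin'_apply', Matrix.toBilin'_apply', dotProduct_mulVec, ← mulVec_transpose, hB,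
      dotProduct_comm]
  obtain ⟨v₀, hv₀⟩ := LinearMap.BilinForm.exists_orthogonal_basis hs
  have hn : Module.finrank F (Fin n → F) = n := by simp
  set v := v₀.reindex (finCongr hn) with hv
  have hort : ∀ i j, i ≠ j → Matrix.toBilin' B (v i) (v j) = 0 := by
    intro i j hij
    rw [hv, Module.Basis.reindex_apply, Module.Basis.reindex_apply]
    exact hv₀ (fun h => hij ((finCongr hn).symm.injective h))
  set C := (Pi.basisFun F (Fin n)).toMatrix v with hC
  set D := v.toMatrix (Pi.basisFun F (Fin n)) with hD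
  have h1 : C * D = 1 := Module.Basis.toMatrix_mul_toMatrix_flip _ _
  have h3 : D * C = 1 := Module.Basis.toMatrix_mul_toMatrix_flip _ _
  have h4 : Cᵀ * B * C = diagonal fun i => Matrix.toBilin' B (v i) (v i) := by
    ext i j
    have h5 : (Cᵀ * B * C) i j = Matrix.toBilin' B (v i) (v j) := by
      rw [Matrix.toBilin'_apply', Matrix.mul_assoc, Matrix.mul_apply, dotProduct]
      refine Finset.sum_congr rfl fun k _ => ?_
      rw [Matrix.transpose_apply, hC, Module.Basis.toMatrix_apply, Pi.basisFun_repr,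
        Matrix.mul_apply]
      congr 1
    rw [h5, diagonal_apply]
    split_ifs with h
    · rw [h]
    · exact hort i j h
  refine ⟨fun i => Matrix.toBilin' B (v i) (v i), ?_, C, D, h1, h3, h4⟩
  have h6 := congrArg det h4
  rw [det_mul, det_mul, det_transpose, det_diagonal] at h6
  have h7 : C.det * D.det = 1 := by rw [← det_mul, h1, det_one]
  have h8 : C.det ≠ 0 := fun h => by rw [h, zero_mul] at h7; exact zero_ne_one h7
  have h9 : ∏ i, Matrix.toBilin' B (v i) (v i) ≠ 0 := by
    rw [← h6]
    exact mul_ne_zero (mul_ne_zero h8 hdet) h8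
  intro i
  exact Finset.prod_ne_zero_iff.1 h9 i (Finset.mem_univ _)


/-- transport of a skew map along a congruence -/
theorem transport {N : ℕ} {J : Type} [Fintype J] [DecidableEq J]
    {B : Matrix (Fin N) (Fin N) F} {S : Matrix J J F} (h : Cgr B S) (T' : Matrix J J F)
    (hT' : (S * T')ᵀ = -(S * T')) :
    ∃ T : Matrix (Fin N) (Fin N) F, Skew B T ∧ T.charpoly = T'.charpoly := by
  have hcard : Fintype.card J = N := by
    obtain ⟨C, D, h1, h3, h4⟩ := h
    let e : (Fin N → F) ≃ₗ[F] (J → F) :=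
      { toFun := fun v => D *ᵥ v
        invFun := fun w => C *ᵥ w
        left_inv := fun v => by
          show C *ᵥ (D *ᵥ v) = v
          rw [mulVec_mulVec, h1, one_mulVec]
        right_inv := fun w => by
          show D *ᵥ (C *ᵥ w) = w
          rw [mulVec_mulVec, h3, one_mulVec]
        map_add' := fun v w => mulVec_add _ _ _
        map_smul' := fun a v => mulVec_smul _ _ _ }
    have := e.finrank_eq
    simpa using this.symm
  obtain ⟨C, D, h1, h3, h4⟩ := h
  have hB : B = Dᵀ * S * D := by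
    rw [← h4]
    calc B = (C * D)ᵀ * B * (C * D) := by rw [h1]; simp
      _ = _ := by rw [transpose_mul]; simp only [Matrix.mul_assoc]
  refine ⟨C * (T' * D), ?_, ?_⟩
  · unfold Skew
    have : B * (C * (T' * D)) = Dᵀ * (S * T') * D := by
      calc B * (C * (T' * D)) = Dᵀ * S * (D * C) * (T' * D) := by
            conv_lhs => rw [hB]
            simp only [Matrix.mul_assoc]
        _ = _ := by rw [h3]; simp only [Matrix.mul_assoc, Matrix.one_mul]
    rw [this, transpose_mul, transpose_mul, hT', transpose_transpose]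
    simp [Matrix.mul_assoc]
  · rw [Matrix.charpoly_mul_comm_of_le _ _ (by simp [hcard]), Matrix.mul_assoc, h3, Matrix.mul_one]
    simp [hcard]


end Pool.Agent.R932.SQ
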