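import Pool.Agent.R932.SQ.Near
import Pool.Agent.R932.OP.SForm
import Pool.Agent.R932.SQ.Cg
import Pool.Agent.R932.OP.SymA

/-!
# Project SQ: elements of the Lie algebra of a form without isotropic relation
-/

set_option autoImplicit false
set_option linter.unusedSectionVars false

open Matrix Polynomial Filter Topology
open Pool.Agent.Y142.ZO Pool.Agent.Y142.ZI Pool.Agent.Y142.ZS
open Pool.Agent.Y331.ZD (exists_mu)

namespace Pool.Agent.R932.SQ

section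
variable {ℓ : ℕ} [hℓ : Fact ℓ.Prime]

/-- a sum of numbers of pairwise different norms -/
theorem sum_ne {I : Finset (Lb ℓ)} (hI : I.Nonempty) (h0 : (0 : Lb ℓ) ∉ I)
    (h : ∀ x ∈ I, ∀ y ∈ I, ‖x‖ = ‖y‖ → x = y) : ∑ t ∈ I, t ≠ 0 := by
  classical
  obtain ⟨x, hx, hmax⟩ := I.exists_max_image (fun t => ‖t‖) hI
  intro hs
  rw [← Finset.add_sum_erase I (fun t => t) hx] at hs
  have h1 : x = -∑ t ∈ I.erase x, t := eq_neg_of_add_eq_zero_left hs
  have hx0 : 0 < ‖x‖ := norm_pos_iff.2 (fun h => h0 (h ▸ hx))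
  rcases (I.erase x).eq_empty_or_nonempty with he | hne
  · rw [he, Finset.sum_empty, neg_zero] at h1
    rw [h1, norm_zero] at hx0
    exact lt_irrefl _ hx0
  · obtain ⟨z, hz, hz'⟩ := IsUltrametricDist.exists_norm_finsetSum_le_of_nonempty hne (fun t => t)
    have h2 : ‖x‖ ≤ ‖z‖ := by
      conv_lhs => rw [h1, norm_neg]
      exact hz'
    have hzI := Finset.mem_of_mem_erase hz
    have h3 := h z hzI x hx (le_antisymm (hmax z hzI) h2)
    exact Finset.ne_of_mem_erase hz h3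

/-- no relation if roots of equal norm agree up to sign -/
theorem noRel_zero {p : ℚ_[ℓ][X]} (hsep : p.Separable)
    (h : ∀ x y : Lb ℓ, aeval x p = 0 → aeval y p = 0 → ‖x‖ = ‖y‖ → x = y ∨ x = -y) :
    NoRel p 0 := by
  refine ⟨hsep, fun I hI hr => ?_⟩
  rw [map_zero, mul_zero]
  refine mul_ne_zero (by norm_num) (sum_ne hI (fun h0 => ?_) fun x hx y hy hxy => ?_)
  · have h1 := (hr 0 h0).2
    rw [map_zero, sub_zero] at h1
    exact h1 h0
  · rcases h x y (hr x hx).1 (hr y hy).1 hxy with h1 | h1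
    · exact h1
    · have h2 := (hr y hy).2
      rw [map_zero, zero_sub, ← h1] at h2
      exact absurd hx h2

theorem noRel_prod {n r : ℕ} (hr : r ≤ 1) (μ : Fin n → ℚ_[ℓ]) (h0 : ∀ i, μ i ≠ 0)
    (hinj : ∀ i j, ‖μ i‖ = ‖μ j‖ → i = j) :
    NoRel ((∏ i, ((X : ℚ_[ℓ][X]) ^ 2 - C (μ i))) * X ^ r) 0 := by
  have hroot : ∀ x : Lb ℓ, aeval x ((∏ i, ((X : ℚ_[ℓ][X]) ^ 2 - C (μ i))) * X ^ r) = 0 →
      x = 0 ∨ ∃ i, x ^ 2 = algebraMap ℚ_[ℓ] (Lb ℓ) (μ i) := by
    intro x hx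
    rw [map_mul, map_pow, aeval_X, map_prod] at hx
    rcases mul_eq_zero.1 hx with h | h
    · obtain ⟨i, -, hi⟩ := Finset.prod_eq_zero_iff.1 h
      rw [map_sub, map_pow, aeval_X, aeval_C, sub_eq_zero] at hi
      exact Or.inr ⟨i, hi⟩
    · left
      rcases Nat.le_one_iff_eq_zero_or_eq_one.1 hr with h1 | h1
      · rw [h1, pow_zero] at h
        exact absurd h one_ne_zero
      · rwa [h1, pow_one] at h
  have hnz : ∀ (x : Lb ℓ) (i : Fin n), x ^ 2 = algebraMap ℚ_[ℓ] (Lb ℓ) (μ i) → ‖x‖ ^ 2 = ‖μ i‖ := by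
    intro x i h
    rw [← norm_pow, h, Pool.Agent.Y331.ZD.norm_map]
  refine noRel_zero ?_ fun x y hx hy hxy => ?_
  · refine Separable.mul ?_ ?_ ?_
    · refine separable_prod (fun i j hij => ?_) fun i => ?_
      · have hne : μ j - μ i ≠ 0 := by
          intro h
          exact hij (hinj i j (by rw [sub_eq_zero.1 h]))
        refine ⟨C ((μ j - μ i)⁻¹), -C ((μ j - μ i)⁻¹), ?_⟩
        have h1 : C ((μ j - μ i)⁻¹) * (X ^ 2 - C (μ i)) + -C ((μ j - μ i)⁻¹) * (X ^ 2 - C (μ j)) =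
            C ((μ j - μ i)⁻¹ * (μ j - μ i)) := by
          rw [C_mul, C_sub]; ring
        rw [h1, inv_mul_cancel₀ hne, C_1]
      · exact separable_X_pow_sub_C (μ i) (by norm_num) (h0 i)
    · rcases Nat.le_one_iff_eq_zero_or_eq_one.1 hr with h | h
      · rw [h, pow_zero]; exact separable_one
      · rw [h, pow_one]; exact separable_X
    · refine IsCoprime.pow_right (IsCoprime.prod_left fun i _ => ?_)
      refine ⟨-C ((μ i)⁻¹), C ((μ i)⁻¹) * X, ?_⟩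
      have h1 : -C ((μ i)⁻¹) * (X ^ 2 - C (μ i)) + C ((μ i)⁻¹) * X * X = C ((μ i)⁻¹ * μ i) := by
        rw [C_mul]; ring
      rw [h1, inv_mul_cancel₀ (h0 i), C_1]
  · rcases hroot x hx with h1 | ⟨i, h1⟩
    · rw [h1, norm_zero] at hxy
      left
      rw [h1, norm_eq_zero.1 hxy.symm]
    · rcases hroot y hy with h2 | ⟨j, h2⟩
      · rw [h2, norm_zero] at hxy
        left
        rw [h2, norm_eq_zero.1 hxy]
      · have h3 : i = j := hinj i j (by rw [← hnz x i h1, ← hnz y j h2, hxy])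
        rw [← h3, ← h1] at h2
        exact sq_eq_sq_iff_eq_or_eq_neg.1 h2.symm

/-- scalars such that the norms become different -/
theorem exists_scales {n : ℕ} (c : Fin n → ℚ_[ℓ]) (hc : ∀ i, c i ≠ 0) :
    ∃ a : Fin n → ℚ_[ℓ], (∀ i, a i ≠ 0) ∧ ∀ i j, ‖c i * a i ^ 2‖ = ‖c j * a j ^ 2‖ → i = j := by
  obtain ⟨μ, hμ0, -, hμ⟩ := exists_mu (fun q : Fin n × Fin n => ‖c q.1‖ / ‖c q.2‖)
    (fun _ => True) (fun q _ => div_pos (norm_pos_iff.2 (hc _)) (norm_pos_iff.2 (hc _)))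
  have hℓ1 : (1 : ℝ) < ℓ := by exact_mod_cast hℓ.out.one_lt
  have hinv1 : (ℓ : ℝ)⁻¹ < 1 := inv_lt_one_of_one_lt₀ hℓ1
  have hinv0 : 0 < (ℓ : ℝ)⁻¹ := inv_pos.2 (by linarith)
  obtain ⟨m, hm⟩ := exists_pow_lt_of_lt_one hμ0 hinv1
  have hnorm : ∀ i : Fin n, ‖c i * (((ℓ : ℚ_[ℓ]) ^ (m * (i : ℕ)))) ^ 2‖ =
      ‖c i‖ * ((ℓ : ℝ)⁻¹ ^ (2 * m)) ^ (i : ℕ) := by
    intro i
    rw [norm_mul, norm_pow, norm_pow, Padic.norm_p, ← pow_mul, ← pow_mul]
    congr 2
    ring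
  have hlt : ∀ i j : Fin n, i < j → ‖c j * (((ℓ : ℚ_[ℓ]) ^ (m * (j : ℕ)))) ^ 2‖ <
      ‖c i * (((ℓ : ℚ_[ℓ]) ^ (m * (i : ℕ)))) ^ 2‖ := by
    intro i j hij
    rw [hnorm, hnorm]
    set r : ℝ := (ℓ : ℝ)⁻¹ ^ (2 * m) with hr
    have hr0 : 0 < r := by positivity
    have hr1 : r ≤ 1 := pow_le_one₀ hinv0.le hinv1.le
    have hrm : r ≤ (ℓ : ℝ)⁻¹ ^ m := pow_le_pow_of_le_one hinv0.le hinv1.le (by omega)
    have h1 : r < ‖c i‖ / ‖c j‖ := (hrm.trans_lt hm).trans_le (hμ (i, j) trivial)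
    have hcj : 0 < ‖c j‖ := norm_pos_iff.2 (hc j)
    rw [lt_div_iff₀ hcj] at h1
    have h2 : r ^ (j : ℕ) ≤ r ^ ((i : ℕ) + 1) := pow_le_pow_of_le_one hr0.le hr1 hij
    calc ‖c j‖ * r ^ (j : ℕ) ≤ ‖c j‖ * r ^ ((i : ℕ) + 1) := mul_le_mul_of_nonneg_left h2 hcj.le
      _ = (r * ‖c j‖) * r ^ (i : ℕ) := by ring
      _ < ‖c i‖ * r ^ (i : ℕ) := mul_lt_mul_of_pos_right h1 (by positivity)
  refine ⟨fun i => (ℓ : ℚ_[ℓ]) ^ (m * (i : ℕ)), fun i => pow_ne_zero _
    (by exact_mod_cast hℓ.out.ne_zero), fun i j h => ?_⟩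
  rcases lt_trichotomy i j with h1 | h1 | h1
  · exact absurd h.symm (hlt i j h1).ne
  · exact h1
  · exact absurd h (hlt j i h1).ne

theorem exists_alt {N : ℕ} {J : Matrix (Fin N) (Fin N) ℚ_[ℓ]} (hJ : Jᵀ = -J) (hdet : J.det ≠ 0) :
    ∃ T : Matrix (Fin N) (Fin N) ℚ_[ℓ], SpLie J T ∧ NoRel T.charpoly 0 := by
  obtain ⟨n, hn⟩ := Pool.Agent.R932.OP.even_of_alt hJ hdet
  obtain ⟨a, ha0, ha⟩ := exists_scales (ℓ := ℓ) (fun _ : Fin n => 1) (fun _ => one_ne_zero)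
  have hno := noRel_prod (ℓ := ℓ) (r := 0) (by norm_num) (fun i : Fin n => 1 * a i ^ 2)
    (fun i => mul_ne_zero one_ne_zero (pow_ne_zero _ (ha0 i))) ha
  rw [pow_zero, mul_one] at hno
  have hmon : ∀ i : Fin n, ((X : ℚ_[ℓ][X]) ^ 2 - C (1 * a i ^ 2)).Monic := fun i =>
    monic_X_pow_sub_C _ (by norm_num)
  obtain ⟨T, hT, hTc⟩ := Pool.Agent.R932.OP.sform ℚ_[ℓ] N J
    (∏ i : Fin n, ((X : ℚ_[ℓ][X]) ^ 2 - C (1 * a i ^ 2))) hJ hdet
    (monic_prod_of_monic _ _ fun i _ => hmon i)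
    (by
      rw [natDegree_prod_of_monic _ _ fun i _ => hmon i,
        Finset.sum_congr rfl fun i _ => natDegree_X_pow_sub_C]
      simp
      omega)
    (by
      rw [prod_comp]
      refine Finset.prod_congr rfl fun i _ => ?_
      simp)
  exact ⟨T, hT, by rw [hTc]; exact hno⟩

theorem charpoly_blockDiagonal {F : Type} [Field F] {n : ℕ} (M : Fin n → Matrix (Fin 2) (Fin 2) F) :
    (blockDiagonal M).charpoly = ∏ i, (M i).charpoly := by
  have h1 : (blockDiagonal M).charmatrix = blockDiagonal fun i => (M i).charmatrix := by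
    ext p q
    obtain ⟨a, i⟩ := p
    obtain ⟨b, j⟩ := q
    by_cases hij : i = j
    · subst hij
      rw [blockDiagonal_apply_eq]
      by_cases hab : a = b
      · subst hab
        rw [charmatrix_apply_eq, charmatrix_apply_eq, blockDiagonal_apply_eq]
      · rw [charmatrix_apply_ne _ _ _ hab, charmatrix_apply_ne _ _ _ (fun h => hab (by
          simpa using h)), blockDiagonal_apply_eq]
    · rw [blockDiagonal_apply_ne _ _ _ hij, charmatrix_apply_ne _ _ _ (fun h => hij (by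
        simpa using (congrArg Prod.snd h))), blockDiagonal_apply_ne _ _ _ hij, C_0, neg_zero]
  unfold Matrix.charpoly
  rw [h1, det_blockDiagonal]

theorem exists_symm {N : ℕ} {J : Matrix (Fin N) (Fin N) ℚ_[ℓ]} (hJ : Jᵀ = J) (hdet : J.det ≠ 0) :
    ∃ T : Matrix (Fin N) (Fin N) ℚ_[ℓ], SpLie J T ∧ NoRel T.charpoly 0 := by
  classical
  obtain ⟨d, hd0, hd⟩ := diagz J hJ hdet (by norm_num)
  obtain ⟨n, r, hr, hN⟩ : ∃ n r : ℕ, r ≤ 1 ∧ N = 2 * n + r := ⟨N / 2, N % 2, by omega, by omega⟩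
  have hcard : Fintype.card ((Fin 2 × Fin n) ⊕ Fin r) = Fintype.card (Fin N) := by
    simp [hN]
  let e : ((Fin 2 × Fin n) ⊕ Fin r) ≃ Fin N := Fintype.equivOfCardEq hcard
  have hcong := hd.trans (Cgr.diag_reindex d e)
  obtain ⟨a, ha0, ha⟩ := exists_scales (ℓ := ℓ)
    (fun i : Fin n => -(d (e (Sum.inl (0, i))) * d (e (Sum.inl (1, i)))))
    (fun i => neg_ne_zero.2 (mul_ne_zero (hd0 _) (hd0 _)))
  let M : Fin n → Matrix (Fin 2) (Fin 2) ℚ_[ℓ] := fun i =>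
    !![0, -(d (e (Sum.inl (1, i))) * a i); d (e (Sum.inl (0, i))) * a i, 0]
  let T' : Matrix ((Fin 2 × Fin n) ⊕ Fin r) ((Fin 2 × Fin n) ⊕ Fin r) ℚ_[ℓ] :=
    fromBlocks (blockDiagonal M) 0 0 0
  have hskew : (diagonal (d ∘ e) * T')ᵀ = -(diagonal (d ∘ e) * T') := by
    ext p q
    rw [transpose_apply, Matrix.neg_apply, diagonal_mul, diagonal_mul]
    rcases p with ⟨b, i⟩ | p
    · rcases q with ⟨c, j⟩ | q
      · show d (e (Sum.inl (c, j))) * blockDiagonal M (c, j) (b, i) =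
          -(d (e (Sum.inl (b, i))) * blockDiagonal M (b, i) (c, j))
        by_cases hij : i = j
        · subst hij
          rw [blockDiagonal_apply_eq, blockDiagonal_apply_eq]
          fin_cases b <;> fin_cases c <;> simp [M] <;> ring
        · rw [blockDiagonal_apply_ne _ _ _ hij, blockDiagonal_apply_ne _ _ _ (Ne.symm hij)]
          simp
      · show d (e (Sum.inr q)) * 0 = -(d (e (Sum.inl (b, i))) * 0)
        simp
    · rcases q with ⟨c, j⟩ | q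
      · show d (e (Sum.inl (c, j))) * 0 = -(d (e (Sum.inr p)) * 0)
        simp
      · show d (e (Sum.inr q)) * 0 = -(d (e (Sum.inr p)) * 0)
        simp
  obtain ⟨T, hT, hTc⟩ := transport hcong T' hskew
  refine ⟨T, ?_, ?_⟩
  · unfold Pool.Agent.Y142.ZO.Skew at hT
    rw [transpose_mul, hJ] at hT
    unfold SpLie
    rw [hT, neg_add_cancel]
  · rw [hTc]
    have h1 : T'.charpoly = (∏ i : Fin n, ((X : ℚ_[ℓ][X]) ^ 2 -
        C (-(d (e (Sum.inl (0, i))) * d (e (Sum.inl (1, i)))) * a i ^ 2))) * X ^ r := by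
      show (fromBlocks (blockDiagonal M) 0 0 0).charpoly = _
      rw [charpoly_fromBlocks_zero₂₁, charpoly_blockDiagonal]
      congr 1
      · refine Finset.prod_congr rfl fun i _ => ?_
        rw [charpoly_fin_two]
        simp only [M, trace_fin_two, det_fin_two, of_apply, cons_val', cons_val_zero,
          cons_val_one, cons_val_fin_one]
        rw [add_zero, C_0, zero_mul, sub_zero, zero_mul, zero_sub, sub_eq_add_neg, ← C_neg]
        congr 2
        ring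
      · have h2 : (0 : Matrix (Fin r) (Fin r) ℚ_[ℓ]).charpoly = X ^ r := by
          simp [Matrix.charpoly, Matrix.charmatrix]
        exact h2
    rw [h1]
    exact noRel_prod hr _ (fun i => mul_ne_zero (neg_ne_zero.2 (mul_ne_zero (hd0 _) (hd0 _)))
      (pow_ne_zero _ (ha0 i))) ha

/-- **elements of the Lie algebra without isotropic relation** -/
theorem exists_noRel {N : ℕ} {J : Matrix (Fin N) (Fin N) ℚ_[ℓ]} (hJ : Jᵀ = J ∨ Jᵀ = -J)
    (hdet : J.det ≠ 0) : ∃ T : Matrix (Fin N) (Fin N) ℚ_[ℓ], SpLie J T ∧ NoRel T.charpoly 0 := by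
  rcases hJ with h | h
  · exact exists_symm h hdet
  · exact exists_alt h hdet

end

end Pool.Agent.R932.SQ
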