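import Pool.Agent.R932.OP.IrrC
import Pool.Agent.R932.FP.Odd

/-!
# The integral Mumford-Tate conjecture at 100 percent of the primes from Frobenius polynomials at one prime
-/

set_option autoImplicit false
set_option linter.unusedSectionVars false
set_option linter.style.haveILetI false

open Matrix Polynomial Filter Topology NumberField IsDedekindDomain
open Pool.Agent.Y142.ZO Pool.Agent.Y142.ZI
open Pool.Agent.Y95.MT
open Pool.Agent.W544.PG (HS BD bl)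

namespace Pool.Agent.R932.SQ

open Pool.Agent.R932 Pool.Agent.R932.OP

noncomputable section

section
variable {K : Type} [Field K] [NumberField K] {n : ℕ} {S : Set (HeightOneSpectrum (𝓞 K))}
  {P : HeightOneSpectrum (𝓞 K) → ℚ[X]} {Γ : Type} [Group Γ] [TopologicalSpace Γ]
  [IsTopologicalGroup Γ] [CompactSpace Γ] {s : GK K →* Γ} {T : HS n}

/-- **the integral Mumford-Tate conjecture at 100 percent of the primes, odd rank, from Frobenius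
polynomials at one prime** -/
theorem mt_int_fp {κ : Type} [Fintype κ] [DecidableEq κ] (hn : Odd n) (hn5 : 5 ≤ n)
    {p q : Fin 1 → ℕ}
    (hB : T.Big (one1 n) p q) (hS : S.Finite) (hs : Continuous s)
    (α : ∀ (ℓ : ℕ) [Fact ℓ.Prime], Γ →* Matrix κ κ ℤ_[ℓ])
    (hα : ∀ (ℓ : ℕ) [Fact ℓ.Prime], (Set.range (α ℓ)).Finite)
    (β : ∀ (ℓ : ℕ) [Fact ℓ.Prime], Γ →* Matrix (Fin n) (Fin n) ℤ_[ℓ])
    (hβ : ∀ (ℓ : ℕ) [Fact ℓ.Prime], RepT s T S P ℓ (β ℓ))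
    (Γ' : Subgroup Γ) (hΓ' : Γ'.index ≠ 0)
    (hconn : ∀ (ℓ : ℕ) [Fact ℓ.Prime], ConnM (totI (α ℓ) (β ℓ)) Γ')
    (ℓ₀ : ℕ) [hℓ₀ : Fact ℓ₀.Prime] (hdvd : ¬ ℓ₀ ∣ n - 1) (hcond : FP.CondO S P ℓ₀) :
    Y142.ZI.DensityZero {ℓ | ∃ _ : Fact ℓ.Prime, ¬ IdxLe (cI n * Γ'.index)
      (totI (α ℓ) (β ℓ) '' (Γ' : Set Γ)) (GZ ℓ (hM (fun _ => (1 : Matrix κ κ ℂ)) T))} := by
  obtain ⟨c, Z, hc0, hZ⟩ := clear_form T.Q
  have hZt : Zᵀ = Z := by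
    apply Matrix.map_injective (f := (Int.castRingHom ℚ)) Int.cast_injective
    show Zᵀ.map (Int.castRingHom ℚ) = Z.map (Int.castRingHom ℚ)
    rw [Matrix.transpose_map, hZ, transpose_smul, T.symm]
  have hZdet : Z.det ≠ 0 := by
    intro h
    have h1 := congrArg Matrix.det hZ
    have h2 : (Z.map (Int.castRingHom ℚ)).det = ((Z.det : ℤ) : ℚ) := by
      rw [← RingHom.mapMatrix_apply, ← RingHom.map_det]
      rfl
    rw [h2, h, det_smul, Int.cast_zero] at h1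
    exact mul_ne_zero (pow_ne_zero _ (by exact_mod_cast hc0)) (W74.PG.det_ne T) h1.symm
  set B : ∀ (ℓ : ℕ) [Fact ℓ.Prime], Matrix (Fin n) (Fin n) ℤ_[ℓ] :=
    fun ℓ _ => Z.map (Int.castRingHom ℤ_[ℓ]) with hBdef
  have hBdet : ∀ (ℓ : ℕ) [Fact ℓ.Prime], (B ℓ).det = ((Z.det : ℤ) : ℤ_[ℓ]) := by
    intro ℓ _
    show (Z.map (Int.castRingHom ℤ_[ℓ])).det = _
    rw [← RingHom.mapMatrix_apply, ← RingHom.map_det]
    rfl
  have hBQ : ∀ (ℓ : ℕ) [Fact ℓ.Prime], (B ℓ).map (algebraMap ℤ_[ℓ] ℚ_[ℓ]) =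
      (c : ℚ_[ℓ]) • T.Q.map (algebraMap ℚ ℚ_[ℓ]) := by
    intro ℓ _
    have h1 : (B ℓ).map (algebraMap ℤ_[ℓ] ℚ_[ℓ]) =
        (Z.map (Int.castRingHom ℚ)).map (algebraMap ℚ ℚ_[ℓ]) := by
      ext i j
      simp [hBdef]
    rw [h1, hZ]
    ext i j
    simp
  have hcℓ : ∀ (ℓ : ℕ) [Fact ℓ.Prime], (c : ℚ_[ℓ]) ≠ 0 := fun ℓ _ => by exact_mod_cast hc0
  have hsys : ∀ (ℓ : ℕ) [Fact ℓ.Prime], IntegralSys K n ℓ s (β ℓ) (B ℓ) S P := by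
    intro ℓ _
    have hinj : Function.Injective (algebraMap ℤ_[ℓ] ℚ_[ℓ]) := IsFractionRing.injective _ _
    refine ⟨(hβ ℓ).cont.comp hs, ?_, ?_, fun g => ?_, fun v hv hvℓ σ hσ => ?_⟩
    · show (Z.map (Int.castRingHom ℤ_[ℓ]))ᵀ = _
      rw [← Matrix.transpose_map, hZt]
    · rw [hBdet]
      exact_mod_cast hZdet
    · have h1 : ((β ℓ g)ᵀ * B ℓ * β ℓ g).map (algebraMap ℤ_[ℓ] ℚ_[ℓ]) =
          (B ℓ).map (algebraMap ℤ_[ℓ] ℚ_[ℓ]) := by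
        rw [Matrix.map_mul, Matrix.map_mul, hBQ, mul_smul_comm, smul_mul_assoc,
          Matrix.transpose_map]
        congr 1
        exact (hβ ℓ).form g
      exact Matrix.map_injective hinj h1
    · rw [← (hβ ℓ).frob v hv hvℓ σ hσ]
      exact (Matrix.charpoly_map _ _).symm
  have hun : ∃ b : ℕ, ∀ (ℓ : ℕ) [Fact ℓ.Prime], b < ℓ → IsUnit (B ℓ).det := by
    refine ⟨Z.det.natAbs, fun ℓ _ hℓ => ?_⟩
    rw [hBdet, PadicInt.isUnit_iff]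
    refine le_antisymm (PadicInt.norm_le_one _) (not_lt.1 ?_)
    rw [PadicInt.norm_intCast_lt_one_iff]
    intro hdvd
    have h5 := Int.natAbs_dvd_natAbs.mpr hdvd
    rw [Int.natAbs_natCast] at h5
    have h6 := Nat.le_of_dvd (Int.natAbs_pos.mpr hZdet) h5
    omega
  have hcl : ∀ (ℓ : ℕ) [Fact ℓ.Prime], IsClosed (Set.range (β ℓ)) := by
    intro ℓ _
    haveI : T2Space (Matrix (Fin n) (Fin n) ℤ_[ℓ]) :=
      inferInstanceAs (T2Space (Fin n → Fin n → ℤ_[ℓ]))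
    exact (isCompact_range (hβ ℓ).cont).isClosed
  -- the prime `ℓ₀`
  have hfull : Y142.ZI.FullLie ℓ₀ (genRep ℓ₀ ((β ℓ₀).comp s)) (genM ℓ₀ (B ℓ₀)) := by
    obtain ⟨o1, o2, o3, o4, o5⟩ := orthogonal_of (hsys ℓ₀)
    intro X hX
    refine FP.full_oo (S := S) (P := P) (J := genM ℓ₀ (B ℓ₀)) (by omega) o1 o2 o3 o4 o5 hcond X ?_
    have h1 : (genM ℓ₀ (B ℓ₀) * X)ᵀ = -(genM ℓ₀ (B ℓ₀) * X) := hX
    rw [transpose_mul, o2] at h1
    show Xᵀ * genM ℓ₀ (B ℓ₀) + genM ℓ₀ (B ℓ₀) * X = 0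
    rw [h1, neg_add_cancel]
  refine Y142.ZI.DensityZero.mono (idx_one hn hn5 hS β B hsys hcl hun ℓ₀ hdvd hfull) ?_
  rintro ℓ ⟨hp, hno⟩
  exact ⟨hp, fun hidx => hno (idxLe_of_idx hB (hα ℓ) (hβ ℓ).form hΓ' (hconn ℓ) (hcℓ ℓ) (hBQ ℓ)
    hidx)⟩

end

end

end Pool.Agent.R932.SQ
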