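import Pool.Agent.Y518.SS.Krs

/-!
# Project SQ: Frobenius elements close to a tangent vector without isotropic relation
-/

set_option autoImplicit false
set_option linter.unusedSectionVars false

open Polynomial Filter Topology
open Pool.Agent.Y142.ZI Pool.Agent.Y142.ZD
open Pool.Agent.Y331.ZD (um_add um_sub near_split norm_map exists_mu exists_bd root_aut)

namespace Pool.Agent.R932.SQ

variable {ℓ : ℕ} [hℓ : Fact ℓ.Prime]

/-- an algebraic closure of the field of `ℓ`-adic numbers -/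
abbrev Lb (ℓ : ℕ) [Fact ℓ.Prime] : Type := AlgebraicClosure ℚ_[ℓ]

/-- the roots of a polynomial whose rescaling is close to `R₀` -/
theorem near_roots (R₀ : ℚ_[ℓ][X]) (hR₀ : R₀.Monic) (hsep : R₀.Separable) {μ₀ : ℝ} (hμ₀ : 0 < μ₀) :
    ∃ ε : ℝ, 0 < ε ∧ ∀ (k : ℕ) (Q : ℚ_[ℓ][X]), Q.Monic → Q.natDegree = R₀.natDegree →
      (∀ j, ‖(resc ℓ k Q - R₀).coeff j‖ < ε) →
      Q.Separable ∧ ∃ φ : Lb ℓ → Lb ℓ, ∀ x, aeval x Q = 0 → aeval (φ x) R₀ = 0 ∧
        ‖(x - 1) / (algebraMap ℚ_[ℓ] (Lb ℓ) ((ℓ : ℚ_[ℓ]) ^ k)) - φ x‖ < μ₀ ∧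
        ∀ y, aeval y Q = 0 → φ x = φ y → x = y := by
  classical
  set L := AlgebraicClosure ℚ_[ℓ] with hL
  set i : ℚ_[ℓ] →+* L := algebraMap ℚ_[ℓ] L with hi
  have hnorm : ∀ x : ℚ_[ℓ], ‖i x‖ = ‖x‖ := norm_map
  -- the roots of `R₀`
  set J : Type := {r : L // r ∈ (R₀.map i).roots.toFinset} with hJ
  set b : J → L := Subtype.val with hb
  have hbinj : Function.Injective b := Subtype.val_injective
  have hsepP : (R₀.map i).Separable := hsep.map
  have hndR : (R₀.map i).roots.Nodup := nodup_roots hsepP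
  have hcardJ : Fintype.card J = R₀.natDegree := by
    rw [Fintype.card_coe, Multiset.toFinset_card_of_nodup hndR,
      ← (IsAlgClosed.splits (R₀.map i)).natDegree_eq_card_roots, natDegree_map]
  have hroot0 : ∀ j : J, aeval (b j) R₀ = 0 := by
    rintro ⟨s', hs'⟩
    rw [Multiset.mem_toFinset, mem_roots (hR₀.map i).ne_zero, IsRoot, eval_map, ← aeval_def] at hs'
    exact hs'
  have hprod0 : R₀.map i = ∏ j : J, (X - C (b j)) := by
    conv_lhs => rw [(IsAlgClosed.splits (R₀.map i)).eq_prod_roots_of_monic (hR₀.map i)]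
    rw [Finset.prod_coe_sort (R₀.map i).roots.toFinset (fun r => (X - C r : L[X])),
      Finset.prod, Multiset.toFinset_val, Multiset.dedup_eq_self.mpr hndR]
  -- the constants
  obtain ⟨M, hM1, hM⟩ := exists_bd (fun j : J => ‖b j‖)
  obtain ⟨μ₁, hμ10, hμ11, hμ1⟩ := exists_mu
    (fun q : J × J => ‖b q.1 - b q.2‖)
    (fun q => b q.1 - b q.2 ≠ 0)
    (fun q hq => norm_pos_iff.mpr hq)
  set μ : ℝ := min μ₁ μ₀ with hμdef
  have hμ0 : 0 < μ := lt_min hμ10 hμ₀
  have hM0 : 0 < M := by linarith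
  have hsep2 : ∀ j1 j2 : J, j1 ≠ j2 → μ ≤ ‖b j1 - b j2‖ := by
    intro j1 j2 hne
    refine (min_le_left _ _).trans ?_
    refine hμ1 (j1, j2) ?_
    dsimp only
    intro h0
    exact hne (hbinj (sub_eq_zero.1 h0))
  have hεpos : 0 < μ ^ Fintype.card J / (2 * M ^ Fintype.card J) := by positivity
  have hε1 : μ ^ Fintype.card J / (2 * M ^ Fintype.card J) * M ^ Fintype.card J <
      μ ^ Fintype.card J := by
    have h1 : μ ^ Fintype.card J / (2 * M ^ Fintype.card J) * M ^ Fintype.card J =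
        μ ^ Fintype.card J / 2 := by field_simp
    rw [h1]
    have : 0 < μ ^ Fintype.card J := by positivity
    linarith
  refine ⟨μ ^ Fintype.card J / (2 * M ^ Fintype.card J), hεpos, ?_⟩
  intro k Q hQ hQdeg hcl
  obtain ⟨r, hrinj, hrb, hprod⟩ := near_split (b := b) (P := (resc ℓ k Q).map i) hμ0 hM1 hM
    hsep2 hεpos.le hε1 ((resc_monic k hQ).map i)
    (by rw [natDegree_map, resc_natDegree, hQdeg, hcardJ])
    (fun j => by
      rw [← hprod0, ← Polynomial.map_sub, coeff_map, hnorm]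
      exact (hcl j).le)
  have hLk : ((ℓ : ℚ_[ℓ]) ^ k) ≠ 0 := ell_pow_ne k
  set la : L := i ((ℓ : ℚ_[ℓ]) ^ k) with hla
  have hla0 : la ≠ 0 := (_root_.map_ne_zero _).2 hLk
  have hrootR : ∀ s : L, aeval s (resc ℓ k Q) = 0 ↔ ∃ j, s = r j := by
    intro s
    rw [aeval_def, ← eval_map, ← hi, hprod, eval_prod, Finset.prod_eq_zero_iff]
    simp [sub_eq_zero]
  have hsepR : (resc ℓ k Q).Separable := by
    refine (separable_map i).mp ?_
    rw [hprod]
    exact (separable_prod_X_sub_C_iff (f := r)).mpr hrinj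
  have hex : ∀ x : L, aeval x Q = 0 → ∃ j, (x - 1) / la = r j := by
    intro x hx
    exact (hrootR _).mp ((aeval_resc k Q x).mpr hx)
  refine ⟨separable_of_resc k hsepR, fun x => if h : aeval x Q = 0 then b (hex x h).choose else 0,
    fun x hx => ?_⟩
  simp only [dif_pos hx]
  have hsx := (hex x hx).choose_spec
  refine ⟨hroot0 _, ?_, fun y hy hxy => ?_⟩
  · have h1 := (hrb (hex x hx).choose).trans_le (min_le_right μ₁ μ₀)
    rw [← hsx] at h1
    exact h1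
  · rw [dif_pos hy] at hxy
    have h1 := hbinj hxy
    have hsy := (hex y hy).choose_spec
    rw [← h1, ← hsx] at hsy
    have h2 := (div_left_inj' hla0).1 hsy
    exact (sub_left_inj.1 h2).symm

theorem norm_two_le : ‖(2 : Lb ℓ)‖ ≤ 1 := by
  have h1 := Pool.Agent.Y547.ZI.norm_nat (ℓ := ℓ) 2
  have h2 : ‖((2 : ℕ) : ℚ_[ℓ])‖ ≤ 1 := by exact_mod_cast Padic.norm_int_le_one (p := ℓ) 2
  have h3 : ((2 : ℕ) : Lb ℓ) = 2 := by norm_num
  rw [← h3, h1]
  exact h2

/-- a product of numbers close to one -/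
theorem prod_near {α : Type} (I : Finset α) (u : α → Lb ℓ) {δ : ℝ} (h0 : 0 ≤ δ) (h1 : δ ≤ 1)
    (hu : ∀ i ∈ I, ‖u i‖ ≤ δ) :
    ‖∏ i ∈ I, (1 + u i) - 1 - ∑ i ∈ I, u i‖ ≤ δ ^ 2 := by
  classical
  induction I using Finset.induction_on with
  | empty =>
    simp only [Finset.prod_empty, Finset.sum_empty, sub_self, norm_zero]
    positivity
  | insert a I ha ih =>
    have hI : ∀ i ∈ I, ‖u i‖ ≤ δ := fun i hi => hu i (Finset.mem_insert_of_mem hi)
    have h2 := ih hI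
    have h3 : ‖∑ i ∈ I, u i‖ ≤ δ := IsUltrametricDist.norm_sum_le_of_forall_le_of_nonneg h0 hI
    have h4 : ‖u a‖ ≤ δ := hu a (Finset.mem_insert_self _ _)
    rw [Finset.prod_insert ha, Finset.sum_insert ha]
    set E := ∏ i ∈ I, (1 + u i) - 1 - ∑ i ∈ I, u i with hE
    have h5 : (1 + u a) * ∏ i ∈ I, (1 + u i) - 1 - (u a + ∑ i ∈ I, u i) =
        E + (u a * ∑ i ∈ I, u i + u a * E) := by rw [hE]; ring
    rw [h5]
    have h6 : ‖u a * ∑ i ∈ I, u i‖ ≤ δ ^ 2 := by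
      rw [norm_mul, sq]
      exact mul_le_mul h4 h3 (norm_nonneg _) h0
    have h7 : ‖u a * E‖ ≤ δ ^ 2 := by
      rw [norm_mul]
      calc ‖u a‖ * ‖E‖ ≤ 1 * δ ^ 2 := mul_le_mul (h4.trans h1) h2 (norm_nonneg _) (by norm_num)
        _ = δ ^ 2 := one_mul _
    exact (IsUltrametricDist.norm_add_le_max _ _).trans (max_le h2
      ((IsUltrametricDist.norm_add_le_max _ _).trans (max_le h6 h7)))

/-- no isotropic relation between the roots of `R₀`: the roots are simple, and `2 ∑ I ≠ |I| c` for every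
nonempty set `I` of roots which does not contain `t` and `c - t` -/
def NoRel (R₀ : ℚ_[ℓ][X]) (c : ℚ_[ℓ]) : Prop :=
  R₀.Separable ∧ ∀ I : Finset (Lb ℓ), I.Nonempty →
    (∀ t ∈ I, aeval t R₀ = 0 ∧ algebraMap ℚ_[ℓ] (Lb ℓ) c - t ∉ I) →
    2 * ∑ t ∈ I, t ≠ (I.card : Lb ℓ) * algebraMap ℚ_[ℓ] (Lb ℓ) c

/-- **no isotropic relation close to `1`** -/
theorem no_rel {R₀ : ℚ_[ℓ][X]} (hm : R₀.Monic) {c : ℚ_[ℓ]} (hno : NoRel R₀ c) :
    ∃ (ε : ℝ) (k₀ : ℕ), 0 < ε ∧ ∀ (k : ℕ) (Q : ℚ_[ℓ][X]) (s : ℚ_[ℓ]), k₀ ≤ k → Q.Monic →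
      Q.natDegree = R₀.natDegree → (∀ j, ‖(resc ℓ k Q - R₀).coeff j‖ < ε) →
      ‖((ℓ : ℚ_[ℓ]) ^ k)⁻¹ * (s - 1) - c‖ < ε →
      ∀ (m : Multiset (Lb ℓ)) (n : ℕ), m ≠ 0 → 0 < n →
        m + m.map (fun z => algebraMap ℚ_[ℓ] (Lb ℓ) s / z) ≤
          (Q.map (algebraMap ℚ_[ℓ] (Lb ℓ))).roots →
        m.prod ^ (2 * n) ≠ (algebraMap ℚ_[ℓ] (Lb ℓ) s) ^ (m.card * n) := by
  classical
  obtain ⟨hsep, hno⟩ := hno
  set L := AlgebraicClosure ℚ_[ℓ] with hL
  set i : ℚ_[ℓ] →+* L := algebraMap ℚ_[ℓ] L with hi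
  have hnorm : ∀ x : ℚ_[ℓ], ‖i x‖ = ‖x‖ := norm_map
  set J : Type := {r : L // r ∈ (R₀.map i).roots.toFinset} with hJ
  have hrootJ : ∀ t : L, aeval t R₀ = 0 → t ∈ (R₀.map i).roots.toFinset := by
    intro t ht
    rw [Multiset.mem_toFinset, mem_roots (hm.map i).ne_zero, IsRoot, eval_map, ← aeval_def]
    exact ht
  obtain ⟨M₀, hM1, hM⟩ := exists_bd (fun j : J => ‖j.1‖)
  obtain ⟨μ₁, hμ10, hμ11, hμ1⟩ := exists_mu
    (fun q : J × J => ‖q.1.1 + q.2.1 - i c‖) (fun q => q.1.1 + q.2.1 - i c ≠ 0)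
    (fun q hq => norm_pos_iff.mpr hq)
  obtain ⟨μ₂, hμ20, hμ21, hμ2⟩ := exists_mu
    (fun q : Finset J => ‖2 * ∑ t ∈ q, t.1 - (q.card : L) * i c‖)
    (fun q => 2 * ∑ t ∈ q, t.1 - (q.card : L) * i c ≠ 0)
    (fun q hq => norm_pos_iff.mpr hq)
  set M : ℝ := max M₀ (‖c‖ + 1) with hMdef
  have hMM : M₀ ≤ M := le_max_left _ _
  have hM1' : 1 ≤ M := hM1.trans hMM
  have hMc : ‖c‖ + 1 ≤ M := le_max_right _ _
  have hM0 : 0 < M := by linarith
  set μ : ℝ := min μ₁ μ₂ with hμdef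
  have hμ0 : 0 < μ := lt_min hμ10 hμ20
  have hμ1' : μ ≤ 1 := (min_le_left _ _).trans hμ11
  obtain ⟨ε₁, hε₁, hnear⟩ := near_roots R₀ hm hsep hμ0
  have hℓ1 : (1 : ℝ) < ℓ := by exact_mod_cast (Fact.out : ℓ.Prime).one_lt
  have hinv1 : (ℓ : ℝ)⁻¹ < 1 := inv_lt_one_of_one_lt₀ hℓ1
  have hinv0 : 0 < (ℓ : ℝ)⁻¹ := inv_pos.2 (by linarith)
  obtain ⟨k₀, hk₀⟩ := exists_pow_lt_of_lt_one
    (show 0 < μ / 3 / M ^ 2 by positivity) hinv1
  refine ⟨min ε₁ μ, k₀, lt_min hε₁ hμ0, ?_⟩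
  intro k Q s hk hQ hdeg hcl hs m n hm0 hn hle hprod
  obtain ⟨hQsep, φ, hφ⟩ := hnear k Q hQ hdeg (fun j => (hcl j).trans_le (min_le_left _ _))
  have hs' : ‖((ℓ : ℚ_[ℓ]) ^ k)⁻¹ * (s - 1) - c‖ < μ := hs.trans_le (min_le_right _ _)
  have hLk : ((ℓ : ℚ_[ℓ]) ^ k) ≠ 0 := ell_pow_ne k
  set la : L := i ((ℓ : ℚ_[ℓ]) ^ k) with hla
  have hla0 : la ≠ 0 := (_root_.map_ne_zero _).2 hLk
  have hlan : ‖la‖ < μ / 3 / M ^ 2 := by
    rw [hla, hnorm, norm_pow, Padic.norm_p]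
    exact (pow_le_pow_of_le_one hinv0.le hinv1.le hk).trans_lt hk₀
  have hlaM : ‖la‖ * M ^ 2 < μ / 3 := by
    rwa [lt_div_iff₀ (by positivity)] at hlan
  have hlaM1 : ‖la‖ * M ≤ 1 / 3 := by
    have h1 : ‖la‖ * M ≤ ‖la‖ * M ^ 2 := by
      refine mul_le_mul_of_nonneg_left ?_ (norm_nonneg _)
      nlinarith
    linarith
  -- the number `s`
  obtain ⟨c', hc'⟩ : ∃ c' : L, i s = 1 + la * c' := by
    refine ⟨(i s - 1) / la, ?_⟩
    rw [mul_div_cancel₀ _ hla0]
    ring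
  have hcc : ‖c' - i c‖ < μ := by
    have h1 : c' - i c = i (((ℓ : ℚ_[ℓ]) ^ k)⁻¹ * (s - 1) - c) := by
      rw [map_sub, map_mul, map_inv₀, map_sub, map_one, hc', ← hla, add_sub_cancel_left,
        inv_mul_cancel_left₀ hla0]
    rw [h1, hnorm]
    exact hs'
  have hc'M : ‖c'‖ ≤ M := by
    have h1 : c' = (c' - i c) + i c := by ring
    rw [h1]
    refine (IsUltrametricDist.norm_add_le_max _ _).trans (max_le ?_ ?_)
    · linarith
    · rw [hnorm]
      have := norm_nonneg c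
      linarith
  -- the roots of `Q`
  have hnd : (Q.map i).roots.Nodup := nodup_roots hQsep.map
  have hmemQ : ∀ z ∈ (Q.map i).roots, aeval z Q = 0 := by
    intro z hz
    rw [mem_roots (hQ.map i).ne_zero, IsRoot, eval_map, ← aeval_def] at hz
    exact hz
  have hnd2 := Multiset.nodup_of_le hle hnd
  rw [Multiset.nodup_add] at hnd2
  obtain ⟨hmnd, -, hdisj⟩ := hnd2
  have hmQ : ∀ z ∈ m, aeval z Q = 0 := fun z hz =>
    hmemQ z (Multiset.mem_of_le hle (Multiset.mem_add.2 (Or.inl hz)))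
  have hmQ' : ∀ z ∈ m, aeval (i s / z) Q = 0 := fun z hz =>
    hmemQ _ (Multiset.mem_of_le hle (Multiset.mem_add.2 (Or.inr (Multiset.mem_map_of_mem _ hz))))
  set r : L → L := fun z => (z - 1) / la with hr
  have hzr : ∀ z, z = 1 + la * r z := by
    intro z
    simp only [hr]
    rw [mul_div_cancel₀ _ hla0]
    ring
  have hφr : ∀ z : L, aeval z Q = 0 → ‖r z - φ z‖ < μ := fun z hz => (hφ z hz).2.1
  have hφM : ∀ z : L, aeval z Q = 0 → ‖φ z‖ ≤ M := fun z hz =>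
    (hM ⟨φ z, hrootJ _ (hφ z hz).1⟩).trans hMM
  have hrM : ∀ z : L, aeval z Q = 0 → ‖r z‖ ≤ M := by
    intro z hz
    have h1 : r z = (r z - φ z) + φ z := by ring
    rw [h1]
    exact (IsUltrametricDist.norm_add_le_max _ _).trans
      (max_le ((hφr z hz).le.trans (hμ1'.trans hM1')) (hφM z hz))
  have hz0 : ∀ z : L, aeval z Q = 0 → z ≠ 0 := by
    intro z hz h0
    have h1 : ‖la * r z‖ ≤ 1 / 3 := by
      rw [norm_mul]
      exact (mul_le_mul_of_nonneg_left (hrM z hz) (norm_nonneg _)).trans hlaM1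
    have h2 : la * r z = -1 := by
      have h3 := hzr z
      rw [h0] at h3
      rw [h0]
      linear_combination -h3
    rw [h2, norm_neg, norm_one] at h1
    norm_num at h1
  -- the set of roots of `R₀`
  set A : Finset L := m.toFinset with hA
  have hAm : ∀ z, z ∈ A ↔ z ∈ m := fun z => Multiset.mem_toFinset
  have hcardA : A.card = m.card := Multiset.toFinset_card_of_nodup hmnd
  have hinj : Set.InjOn φ A := fun z hz y hy h =>
    (hφ z (hmQ z ((hAm z).1 hz))).2.2 y (hmQ y ((hAm y).1 hy)) h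
  set I : Finset L := A.image φ with hI
  have hcardI : I.card = m.card := by rw [hI, Finset.card_image_of_injOn hinj, hcardA]
  have hIne : I.Nonempty := by
    rw [← Finset.card_pos, hcardI, Multiset.card_pos]
    exact hm0
  have hdual : ∀ t ∈ I, aeval t R₀ = 0 ∧ i c - t ∉ I := by
    intro t ht
    rw [hI, Finset.mem_image] at ht
    obtain ⟨z, hz, rfl⟩ := ht
    rw [hAm] at hz
    refine ⟨(hφ z (hmQ z hz)).1, fun hmem => ?_⟩
    rw [hI, Finset.mem_image] at hmem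
    obtain ⟨y, hy, hyz⟩ := hmem
    rw [hAm] at hy
    set z' : L := i s / z with hz'
    have hzQ := hmQ z hz
    have hz'Q : aeval z' Q = 0 := hmQ' z hz
    have h1 : z * z' = i s := by
      rw [hz']
      exact mul_div_cancel₀ _ (hz0 z hzQ)
    have h2 : r z + r z' + la * (r z * r z') = c' := by
      have h3 : (1 + la * r z) * (1 + la * r z') = 1 + la * c' := by
        rw [← hzr z, ← hzr z', h1, hc']
      have h4 : la * (r z + r z' + la * (r z * r z')) = la * c' := by linear_combination h3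
      exact mul_left_cancel₀ hla0 h4
    have h3 : ‖φ z + φ z' - i c‖ < μ := by
      have h4 : φ z + φ z' - i c = -(r z - φ z) + (-(r z' - φ z') + ((c' - i c) +
          -(la * (r z * r z')))) := by linear_combination h2
      rw [h4]
      have h5 : ‖-(la * (r z * r z'))‖ < μ := by
        rw [norm_neg, norm_mul, norm_mul]
        calc ‖la‖ * (‖r z‖ * ‖r z'‖) ≤ ‖la‖ * (M * M) :=
              mul_le_mul_of_nonneg_left (mul_le_mul (hrM z hzQ) (hrM z' hz'Q) (norm_nonneg _)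
                hM0.le) (norm_nonneg _)
          _ = ‖la‖ * M ^ 2 := by ring
          _ < μ / 3 := hlaM
          _ < μ := by linarith
      refine (IsUltrametricDist.norm_add_le_max _ _).trans_lt (max_lt ?_ ?_)
      · rw [norm_neg]; exact hφr z hzQ
      refine (IsUltrametricDist.norm_add_le_max _ _).trans_lt (max_lt ?_ ?_)
      · rw [norm_neg]; exact hφr z' hz'Q
      exact (IsUltrametricDist.norm_add_le_max _ _).trans_lt (max_lt hcc h5)
    have h4 : φ z + φ z' - i c = 0 := by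
      by_contra hne
      have h5 := hμ1 (⟨φ z, hrootJ _ (hφ z hzQ).1⟩, ⟨φ z', hrootJ _ (hφ z' hz'Q).1⟩) hne
      exact absurd h3 (not_lt.mpr ((min_le_left _ _).trans h5))
    have h5 : φ z' = φ y := by rw [hyz]; linear_combination h4
    have h6 := (hφ z' hz'Q).2.2 y (hmQ y hy) h5
    refine Multiset.disjoint_left.1 hdisj hy ?_
    rw [← h6]
    exact Multiset.mem_map_of_mem (fun z => i s / z) hz
  refine hno I hIne hdual ?_
  -- the product
  have hnice : ∏ z ∈ A, z ^ 2 = (i s) ^ m.card := by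
    have hsmall : ∀ (B : Finset L) (u : L → L), (∀ z ∈ B, ‖u z‖ ≤ 1 / 3) →
        ‖∏ z ∈ B, (1 + u z) - 1‖ ≤ 1 / 3 := by
      intro B u hu
      have h1 := prod_near B u (by norm_num : (0 : ℝ) ≤ 1 / 3) (by norm_num) hu
      have h2 : ‖∑ z ∈ B, u z‖ ≤ 1 / 3 :=
        IsUltrametricDist.norm_sum_le_of_forall_le_of_nonneg (by norm_num) hu
      have h3 : ∏ z ∈ B, (1 + u z) - 1 = (∏ z ∈ B, (1 + u z) - 1 - ∑ z ∈ B, u z) +
        ∑ z ∈ B, u z := by ring
      rw [h3]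
      refine (IsUltrametricDist.norm_add_le_max _ _).trans (max_le (h1.trans ?_) h2)
      norm_num
    have hu : ∀ z ∈ A, ‖2 * (la * r z) + (la * r z) ^ 2‖ ≤ 1 / 3 := by
      intro z hz
      have h1 : ‖la * r z‖ ≤ 1 / 3 := by
        rw [norm_mul]
        exact (mul_le_mul_of_nonneg_left (hrM z (hmQ z ((hAm z).1 hz))) (norm_nonneg _)).trans hlaM1
      refine (IsUltrametricDist.norm_add_le_max _ _).trans (max_le ?_ ?_)
      · rw [norm_mul]
        have h2 : ‖(2 : L)‖ ≤ 1 := norm_two_le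
        calc ‖(2 : L)‖ * ‖la * r z‖ ≤ 1 * (1 / 3) :=
              mul_le_mul h2 h1 (norm_nonneg _) (by norm_num)
          _ = 1 / 3 := one_mul _
      · rw [norm_pow]
        calc ‖la * r z‖ ^ 2 ≤ (1 / 3) ^ 2 := pow_le_pow_left₀ (norm_nonneg _) h1 2
          _ ≤ 1 / 3 := by norm_num
    refine Pool.Agent.Y518.SS.nice _ _ n hn ?_ ?_ ?_
    · have h1 : ∏ z ∈ A, z ^ 2 = ∏ z ∈ A, (1 + (2 * (la * r z) + (la * r z) ^ 2)) := by
        refine Finset.prod_congr rfl fun z _ => ?_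
        have h2 := hzr z
        calc z ^ 2 = (1 + la * r z) ^ 2 := by rw [← h2]
          _ = _ := by ring
      rw [h1]
      exact hsmall A _ hu
    · have h1 : (i s) ^ m.card = ∏ z ∈ A, (1 + la * c') := by
        rw [Finset.prod_const, hcardA, hc']
      rw [h1]
      refine hsmall A (fun _ => la * c') fun z _ => ?_
      rw [norm_mul]
      exact (mul_le_mul_of_nonneg_left hc'M (norm_nonneg _)).trans hlaM1
    · have h1 : m.prod = ∏ z ∈ A, z := by
        rw [Finset.prod, hA, Multiset.toFinset_val, Multiset.dedup_eq_self.mpr hmnd,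
          Multiset.map_id']
      rw [Finset.prod_pow, ← pow_mul, ← h1, hprod, pow_mul]
  -- the logarithm
  set δ : ℝ := ‖la‖ * M with hδ
  have hδ0 : 0 ≤ δ := by positivity
  have hδ1 : δ ≤ 1 := by linarith
  have hlr : ∀ z ∈ A, ‖la * r z‖ ≤ δ := by
    intro z hz
    rw [norm_mul]
    exact mul_le_mul_of_nonneg_left (hrM z (hmQ z ((hAm z).1 hz))) (norm_nonneg _)
  have h2n : ‖(2 : L)‖ ≤ 1 := norm_two_le
  have hδ2 : δ ^ 2 ≤ δ := by nlinarith
  have hu : ∀ z ∈ A, ‖2 * (la * r z) + (la * r z) ^ 2‖ ≤ δ := by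
    intro z hz
    have h1 := hlr z hz
    refine (IsUltrametricDist.norm_add_le_max _ _).trans (max_le ?_ ?_)
    · rw [norm_mul]
      calc ‖(2 : L)‖ * ‖la * r z‖ ≤ 1 * δ := mul_le_mul h2n h1 (norm_nonneg _) (by norm_num)
        _ = δ := one_mul _
    · rw [norm_pow]
      exact (pow_le_pow_left₀ (norm_nonneg _) h1 2).trans hδ2
  have hp1 := prod_near A (fun z => 2 * (la * r z) + (la * r z) ^ 2) hδ0 hδ1 hu
  have hp2 := prod_near A (fun _ => la * c') hδ0 hδ1 (fun z _ => by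
    rw [norm_mul]
    exact mul_le_mul_of_nonneg_left hc'M (norm_nonneg _))
  have h1 : ∏ z ∈ A, z ^ 2 = ∏ z ∈ A, (1 + (2 * (la * r z) + (la * r z) ^ 2)) := by
    refine Finset.prod_congr rfl fun z _ => ?_
    have h2 := hzr z
    calc z ^ 2 = (1 + la * r z) ^ 2 := by rw [← h2]
      _ = _ := by ring
  have h2 : (i s) ^ m.card = ∏ z ∈ A, (1 + la * c') := by
    rw [Finset.prod_const, hcardA, hc']
  simp only [← h1, ← h2, hnice] at hp1 hp2
  have h3 : ‖(∑ z ∈ A, (2 * (la * r z) + (la * r z) ^ 2)) - ∑ z ∈ A, la * c'‖ ≤ δ ^ 2 := by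
    have h4 : (∑ z ∈ A, (2 * (la * r z) + (la * r z) ^ 2)) - ∑ z ∈ A, la * c' =
        ((i s) ^ m.card - 1 - ∑ z ∈ A, la * c') +
        -((i s) ^ m.card - 1 - ∑ z ∈ A, (2 * (la * r z) + (la * r z) ^ 2)) := by ring
    rw [h4]
    refine (IsUltrametricDist.norm_add_le_max _ _).trans (max_le hp2 ?_)
    rw [norm_neg]
    exact hp1
  have h4 : ‖∑ z ∈ A, (la * r z) ^ 2‖ ≤ δ ^ 2 := by
    refine IsUltrametricDist.norm_sum_le_of_forall_le_of_nonneg (by positivity) fun z hz => ?_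
    rw [norm_pow]
    exact pow_le_pow_left₀ (norm_nonneg _) (hlr z hz) 2
  have h5 : ‖la * (∑ z ∈ A, (2 * r z - c'))‖ ≤ δ ^ 2 := by
    have h6 : la * (∑ z ∈ A, (2 * r z - c')) =
        ((∑ z ∈ A, (2 * (la * r z) + (la * r z) ^ 2)) - ∑ z ∈ A, la * c') +
        -(∑ z ∈ A, (la * r z) ^ 2) := by
      rw [Finset.mul_sum, ← Finset.sum_sub_distrib, ← Finset.sum_neg_distrib,
        ← Finset.sum_add_distrib]
      refine Finset.sum_congr rfl fun z _ => ?_
      ring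
    rw [h6]
    refine (IsUltrametricDist.norm_add_le_max _ _).trans (max_le h3 ?_)
    rw [norm_neg]
    exact h4
  have h6 : ‖∑ z ∈ A, (2 * r z - c')‖ < μ := by
    rw [norm_mul] at h5
    have hla' : 0 < ‖la‖ := norm_pos_iff.2 hla0
    have h7 : ‖la‖ * ‖∑ z ∈ A, (2 * r z - c')‖ ≤ ‖la‖ * (‖la‖ * M ^ 2) := by
      calc _ ≤ δ ^ 2 := h5
        _ = ‖la‖ * (‖la‖ * M ^ 2) := by rw [hδ]; ring
    have h8 := le_of_mul_le_mul_left h7 hla'
    linarith
  have h7 : ‖∑ z ∈ A, (2 * φ z - i c)‖ < μ := by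
    have h8 : ∑ z ∈ A, (2 * φ z - i c) = (∑ z ∈ A, (2 * r z - c')) +
        ∑ z ∈ A, (-(2 * (r z - φ z)) + (c' - i c)) := by
      rw [← Finset.sum_add_distrib]
      refine Finset.sum_congr rfl fun z _ => ?_
      ring
    rw [h8]
    refine (IsUltrametricDist.norm_add_le_max _ _).trans_lt (max_lt h6 ?_)
    have h9 : ∀ z ∈ A, ‖-(2 * (r z - φ z)) + (c' - i c)‖ < μ := by
      intro z hz
      refine (IsUltrametricDist.norm_add_le_max _ _).trans_lt (max_lt ?_ hcc)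
      rw [norm_neg, norm_mul]
      have h10 := hφr z (hmQ z ((hAm z).1 hz))
      calc ‖(2 : L)‖ * ‖r z - φ z‖ ≤ 1 * ‖r z - φ z‖ :=
            mul_le_mul_of_nonneg_right h2n (norm_nonneg _)
        _ < μ := by rw [one_mul]; exact h10
    have hAne : A.Nonempty := by
      rw [← Finset.card_pos, hcardA, Multiset.card_pos]
      exact hm0
    obtain ⟨z₀, hz₀, hz₀'⟩ := IsUltrametricDist.exists_norm_finset_sum_le_of_nonempty hAne
      (fun z => -(2 * (r z - φ z)) + (c' - i c))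
    exact hz₀'.trans_lt (h9 z₀ hz₀)
  have h8 : 2 * ∑ t ∈ I, t - (I.card : L) * i c = ∑ z ∈ A, (2 * φ z - i c) := by
    rw [hI, Finset.sum_image hinj, Finset.card_image_of_injOn hinj, Finset.sum_sub_distrib,
      Finset.sum_const, nsmul_eq_mul, Finset.mul_sum]
  rw [← h8] at h7
  by_contra hne
  -- transfer to a finset of roots
  set I' : Finset J := Finset.univ.filter fun j => j.1 ∈ I with hI'
  have h9 : I'.image (fun j : J => j.1) = I := by
    ext t
    rw [Finset.mem_image]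
    constructor
    · rintro ⟨j, hj, rfl⟩
      exact (Finset.mem_filter.1 hj).2
    · intro ht
      exact ⟨⟨t, hrootJ _ (hdual t ht).1⟩, Finset.mem_filter.2 ⟨Finset.mem_univ _, ht⟩, rfl⟩
  have h10 : ∑ t ∈ I, t = ∑ j ∈ I', j.1 := by
    rw [← h9, Finset.sum_image fun a _ b _ h => Subtype.ext h]
  have h11 : I.card = I'.card := by
    rw [← h9, Finset.card_image_of_injOn fun a _ b _ h => Subtype.ext h]
  have h12 := hμ2 I' (by
    rw [← h10, ← h11]
    exact fun h => hne (sub_eq_zero.1 h))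
  rw [← h10, ← h11] at h12
  exact absurd h7 (not_lt.mpr ((min_le_right _ _).trans h12))

end Pool.Agent.R932.SQ
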